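import Pool.Agent.Lib.MP_0d8e88_lc.Reduce
import Pool.Agent.Lib.MP_0d8e88_lc.InNP

/-!
Recognition of bar 2-visibility graphs is NP-complete.
-/

namespace Pool.Agent.Variants.MP_0d8e88_lc.NPComplete2

open Pool.Agent.Lib.MP_0d8e88_lc

theorem result : N793a5b8e.IsCompleteFor N68a2faeb.NP (barLang 2) := by
  refine ⟨barLang_mem_NP 2, fun L hL => ?_⟩
  obtain ⟨f, hf, hf'⟩ := hard L hL
  refine ⟨f, hf, fun x => ?_⟩
  obtain ⟨n, G, h1, h2⟩ := hf' x
  rw [Bool.eq_iff_iff, h2, barLang_iff, h1]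
  constructor
  · exact fun h => ⟨n, G, rfl, h⟩
  · rintro ⟨m, H, e, h⟩
    exact adjWord_inj e.symm (fun G => IsBarVis 2 G) h

end Pool.Agent.Variants.MP_0d8e88_lc.NPComplete2
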